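import Mathlib

namespace Pool.Agent.Results.MP_22c17e_co.TwoNeg

open Finset Classical

variable {F : Type} [Field F]

/-- zero diagonal, off-diagonal entries in L -/
def IsL {n : ℕ} (L : Finset F) (M : Matrix (Fin n) (Fin n) F) : Prop :=
  (∀ i, M i i = 0) ∧ ∀ i j, i ≠ j → M i j ∈ L

def V (α β : F) (t : ℕ) : F := if t % 2 = 0 then α else β

def h (α β : F) (r : ℕ → F) (j : ℕ) (t : ℤ) : F :=
  if 0 < t then V α β (j + 1) - V α β j else if t = 0 then r j - V α β j else 0

lemma V_add (α β : F) (t : ℕ) : V α β (t + 1) = α + β - V α β t := by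
  unfold V
  split_ifs <;> first | omega | ring

lemma val {L : Finset F} {α β : F} (ha : α ∈ L) (hb : β ∈ L) {r : ℕ → F} {s : ℕ}
    (hr : ∀ j < 2 * s + 1, r j ∈ L) (a b : ℤ) (hab : ¬ (a = 0 ∧ b = 0)) :
    α + ∑ j ∈ range (2 * s + 1), h α β r j (b + j * a) ∈ L := by
  have hV : ∀ t, V α β t ∈ L := fun t => by unfold V; split_ifs <;> assumption
  by_cases h0 : a ≤ 0
  · have : ∀ u ≤ 2 * s + 1, α + ∑ j ∈ range u, h α β r j (b + j * a) = V α β u ∨
        (α + ∑ j ∈ range u, h α β r j (b + j * a) ∈ L ∧ b + u * a < 0) := by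
      intro u
      induction u with
      | zero => simp [V]
      | succ u ih =>
        intro hu
        have e : b + ((u + 1 : ℕ) : ℤ) * a = b + u * a + a := by push_cast; ring
        have e0 : a = 0 → (u : ℤ) * a = 0 := fun h => by simp [h]
        rw [sum_range_succ, ← add_assoc, e, h]
        rcases ih (by omega) with h1 | h1
        · rw [h1]
          split_ifs with h2 h3
          · left; ring
          · exact Or.inr ⟨by simpa using hr u (by omega), by omega⟩
          · exact Or.inr ⟨by simpa using hV u, by omega⟩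
        · rw [if_neg (by omega), if_neg (by omega), add_zero]
          exact Or.inr ⟨h1.1, by omega⟩
    rcases this _ le_rfl with h1 | h1
    · exact h1 ▸ hV _
    · exact h1.1
  · have : ∀ u ≤ 2 * s + 1, α + ∑ j ∈ range u, h α β r j (b + j * a) = α ∨
        ∃ l ∈ L, α + ∑ j ∈ range u, h α β r j (b + j * a) = V α β u - β + l ∧ 0 < b + u * a := by
      intro u
      induction u with
      | zero => simp
      | succ u ih =>
        intro hu
        have e : b + ((u + 1 : ℕ) : ℤ) * a = b + u * a + a := by push_cast; ring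
        rw [sum_range_succ, ← add_assoc, e, h]
        rcases ih (by omega) with h1 | ⟨l, hl, h1, h2⟩
        · rw [h1]
          split_ifs with h2 h3
          · exact Or.inr ⟨_, hV (u + 1), by rw [V_add]; ring, by omega⟩
          · exact Or.inr ⟨_, hr u (by omega), by rw [V_add]; ring, by omega⟩
          · left; ring
        · rw [h1, if_pos h2]
          exact Or.inr ⟨l, hl, by ring, by omega⟩
    rcases this _ le_rfl with h1 | ⟨l, hl, h1, -⟩
    · rwa [h1]
    · rw [h1, V, if_neg (by omega)]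
      simpa using hl

lemma sumV (α β : F) (s : ℕ) : ∑ j ∈ range (2 * s + 1), V α β j = α + s * (α + β) := by
  induction s with
  | zero => simp [V]
  | succ s ih =>
    rw [show 2 * (s + 1) + 1 = 2 * s + 1 + 1 + 1 by ring, sum_range_succ, sum_range_succ, ih,
      V_add α β (2 * s + 1)]
    push_cast
    ring

lemma build {L : Finset F} {α β : F} (ha : α ∈ L) (hb : β ∈ L) {r : ℕ → F} {s : ℕ}
    (hr : ∀ j < 2 * s + 1, r j ∈ L) (hs : ∑ j ∈ range (2 * s + 1), r j = s * (α + β))
    (q : ℕ) : ∃ M : Matrix (Fin (q * q)) (Fin (q * q)) F, IsL L M ∧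
      M.rank ≤ (2 * s + 1) * ((2 * s + 1) * q) := by
  set m := 2 * s + 1 with hm
  let c : Fin (q * q) → Fin q × Fin q := finProdFinEquiv.symm
  let φ : ℕ → Fin (q * q) → ℕ := fun j x => (c x).2 + j * (c x).1
  let P : Matrix (Fin (q * q)) (Fin m × Fin (m * q)) F := fun x t => if φ t.1 x = t.2 then 1 else 0
  let Q : Matrix (Fin m × Fin (m * q)) (Fin (q * q)) F := fun t y =>
    (if (t.1 : ℕ) = 0 then α else 0) + h α β r t.1 ((t.2 : ℕ) - φ t.1 y)
  have e : ∀ x y, (P * Q) x y = α + ∑ j ∈ range m, h α β r j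
      ((((c x).2 : ℕ) - ((c y).2 : ℕ) : ℤ) + j * (((c x).1 : ℕ) - ((c y).1 : ℕ))) := by
    intro x y
    have e0 : α = ∑ j ∈ range m, if j = 0 then α else 0 := by simp [hm]
    rw [Matrix.mul_apply, Fintype.sum_prod_type, e0, ← sum_add_distrib, ← e0, sum_range]
    refine sum_congr rfl fun j _ => ?_
    have hlt : φ j x < m * q := by
      have h1 := (c x).1.2
      have h2 := (c x).2.2
      have h3 := j.2
      calc φ j x < q + j * q := Nat.add_lt_add_of_lt_of_le h2 (Nat.mul_le_mul_left _ h1.le)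
        _ = (j + 1) * q := by ring
        _ ≤ m * q := Nat.mul_le_mul_right _ h3
    rw [sum_eq_single (⟨φ j x, hlt⟩ : Fin (m * q))]
    · simp only [P, Q, φ, if_true, one_mul]
      congr 2
      push_cast
      ring
    · intro t _ ht
      simp only [P]
      rw [if_neg (fun e => ht (Fin.ext e.symm)), zero_mul]
    · simp
  refine ⟨P * Q, ⟨fun x => ?_, fun x y hxy => ?_⟩, ?_⟩
  · rw [e]
    simp only [sub_self, mul_zero, add_zero, h, lt_irrefl, if_false, if_true, sum_sub_distrib]
    rw [hs, hm, sumV]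
    ring
  · rw [e]
    refine val ha hb hr _ _ fun h1 => hxy (finProdFinEquiv.symm.injective ?_)
    exact Prod.ext (Fin.ext (by have := h1.1; simp only [c] at this; omega))
      (Fin.ext (by have := h1.2; simp only [c] at this; omega))
  · exact (Matrix.rank_mul_le_left _ _).trans ((Matrix.rank_le_card_width _).trans (by simp))

theorem result (F : Type) [Field F] (L : Finset F) (A : F → ℤ)
    (h0 : ∑ a ∈ L, (A a : F) * a = 0) (h1 : ∑ a ∈ L, A a = 1)
    (hneg : #{a ∈ L | A a < 0} ≤ 2 ∨ #L ≤ 3) :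
    ∃ c : ℝ, 0 < c ∧ ∃ r0 : ℕ, ∀ r ≥ r0, ∃ n : ℕ, c * (r : ℝ) ^ 2 ≤ n ∧
      ∃ M : Matrix (Fin n) (Fin n) F, IsL L M ∧ M.rank ≤ r := by
  obtain ⟨p, hp, hp'⟩ : ∃ p ∈ L, 0 < A p := by
    by_contra hc
    push Not at hc
    have := sum_nonpos hc
    omega
  have hn : #{a ∈ L | A a < 0} ≤ 2 := by
    rcases hneg with h | h
    · exact h
    · have : #{a ∈ L | A a < 0} < #L :=
        card_lt_card ⟨filter_subset _ _, fun hs => by have := (mem_filter.mp (hs hp)).2; omega⟩
      omega
  obtain ⟨α, ha, β, hb, hab⟩ : ∃ α ∈ L, ∃ β ∈ L, ∀ a ∈ L, A a < 0 → a = α ∨ a = β := by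
    by_contra hc
    push Not at hc
    obtain ⟨x, x1, x2, -⟩ := hc p hp p hp
    obtain ⟨y, y1, y2, y3, -⟩ := hc x x1 x x1
    obtain ⟨z, z1, z2, z3, z4⟩ := hc x x1 y y1
    have := (two_lt_card (s := {a ∈ L | A a < 0})).mpr ⟨x, mem_filter.mpr ⟨x1, x2⟩, y,
      mem_filter.mpr ⟨y1, y2⟩, z, mem_filter.mpr ⟨z1, z2⟩, y3.symm, z3.symm, z4.symm⟩
    omega
  let s : ℕ := (A α).natAbs + (A β).natAbs
  let μ : F → ℕ := fun a => (A a + ((if a = α then (s : ℤ) else 0) + if a = β then (s : ℤ) else 0)).toNat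
  have hμ : ∀ a ∈ L, (μ a : ℤ) = A a + ((if a = α then (s : ℤ) else 0) + if a = β then (s : ℤ) else 0) := by
    intro a hL
    refine Int.toNat_of_nonneg ?_
    have := hab a hL
    have k1 : a = α → -(s : ℤ) ≤ A a := fun e => by simp only [s, e]; omega
    have k2 : a = β → -(s : ℤ) ≤ A a := fun e => by simp only [s, e]; omega
    split_ifs with e1 e2 e2
    · have := k1 e1; omega
    · have := k1 e1; omega
    · have := k2 e2; omega
    · have : ¬ A a < 0 := fun h => (this h).elim e1 e2
      omega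
  let T : Multiset F := ∑ a ∈ L, Multiset.replicate (μ a) a
  have c1 : T.toList.length = 2 * s + 1 := by
    have : ((∑ a ∈ L, μ a : ℕ) : ℤ) = 2 * s + 1 := by
      push_cast
      rw [sum_congr rfl hμ]
      simp only [sum_add_distrib, h1, sum_ite_eq', ha, hb, if_true]
      ring
    simp only [Multiset.length_toList, T, Multiset.card_sum, Multiset.card_replicate]
    omega
  have c2 : T.toList.sum = s * (α + β) := by
    have : ∀ a ∈ L, (Multiset.replicate (μ a) a).sum =
        (A a : F) * a + ((if a = α then s * α else 0) + if a = β then s * β else 0) := by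
      intro a hL
      have := congrArg (Int.cast : ℤ → F) (hμ a hL)
      rw [Multiset.sum_replicate, nsmul_eq_mul, ← Int.cast_natCast, this]
      split_ifs <;> subst_vars <;> push_cast <;> ring
    rw [Multiset.sum_toList, Multiset.sum_sum, sum_congr rfl this]
    simp only [sum_add_distrib, h0, sum_ite_eq', ha, hb, if_true]
    ring
  have c3 : ∀ j < 2 * s + 1, T.toList.getD j 0 ∈ L := by
    intro j hj
    rw [List.getD_eq_getElem _ _ (by omega)]
    have := Multiset.mem_toList.mp (List.getElem_mem (l := T.toList) (n := j) (by omega))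
    obtain ⟨a, hL, e⟩ := Multiset.mem_sum.mp this
    exact Multiset.eq_of_mem_replicate e ▸ hL
  have c4 : ∑ j ∈ range (2 * s + 1), T.toList.getD j 0 = s * (α + β) := by
    rw [← c1, sum_range, ← c2, ← Fin.sum_univ_getElem]
    exact sum_congr rfl fun i _ => List.getD_eq_getElem _ _ i.2
  set K := (2 * s + 1) * (2 * s + 1) with hK
  have K0 : 0 < K := by positivity
  refine ⟨1 / (2 * K) ^ 2, by positivity, K, fun r hr => ⟨r / K * (r / K), ?_, ?_⟩⟩
  · have a1 := Nat.div_add_mod r K
    have a2 := Nat.mod_lt r K0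
    have a3 : 0 < r / K := Nat.div_pos hr K0
    have a4 : r ≤ 2 * K * (r / K) := by nlinarith
    have a5 : (r : ℝ) ≤ 2 * K * (r / K : ℕ) := by exact_mod_cast a4
    rw [div_mul_eq_mul_div, div_le_iff₀ (by positivity), one_mul]
    calc (r : ℝ) ^ 2 ≤ (2 * K * (r / K : ℕ)) ^ 2 := by gcongr
      _ = _ := by push_cast; ring
  · obtain ⟨M, m1, m2⟩ := build ha hb c3 c4 (r / K)
    exact ⟨M, m1, m2.trans (by rw [← mul_assoc]; exact Nat.mul_div_le _ _)⟩

end Pool.Agent.Results.MP_22c17e_co.TwoNeg
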